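import Mathlib

namespace Pool.Agent.H.MP_83d7ff_an

open Set Filter Topology Metric

variable {n : ℕ}

/-- `g` expands at every point with linear term `L` and quadratic term `B`. -/
structure Ex (g : (Fin n → ℝ) → ℝ) (L : (Fin n → ℝ) → (Fin n → ℝ) →ₗ[ℝ] ℝ)
    (B : (Fin n → ℝ) →ₗ[ℝ] (Fin n → ℝ) →ₗ[ℝ] ℝ) : Prop where
  ex : ∀ y h (t : ℝ), g (y + t • h) = g y + t * L y h + t ^ 2 * B h h
  c1 : Continuous g
  c2 : ∀ e, Continuous fun y => L y e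
  c3 : Continuous fun h => B h h
  aff : ∀ y v, L (y + v) = L y + (2 : ℝ) • B v

variable {g f q : (Fin n → ℝ) → ℝ} {L L' : (Fin n → ℝ) → (Fin n → ℝ) →ₗ[ℝ] ℝ}
  {B B' : (Fin n → ℝ) →ₗ[ℝ] (Fin n → ℝ) →ₗ[ℝ] ℝ}

lemma Ex.sub (h : Ex g L B) (h' : Ex q L' B') : Ex (g - q) (L - L') (B - B') :=
  ⟨fun y v t => by simp [h.ex, h'.ex]; ring, h.c1.sub h'.c1, fun e => (h.c2 e).sub (h'.c2 e), h.c3.sub h'.c3,
    fun y v => by simp [h.aff, h'.aff, smul_sub]; abel⟩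

lemma Ex.dens (h : Ex g L B) {p} (hp : g p ≠ 0) : Dense {x | g x ≠ 0} := dense_iff_inter_open.2 fun U hU ⟨x, hx⟩ => by
  by_contra a
  have h1 : ∀ y ∈ U, g y = 0 := fun y hy => by_contra fun b => a ⟨y, hy, b⟩
  obtain ⟨δ, δ0, h2⟩ := Metric.eventually_nhds_iff.1 ((show ContinuousAt (fun t : ℝ => x + t • (p - x)) 0 by
    fun_prop).eventually (hU.mem_nhds (by simpa)))
  have h3 := h1 _ (@h2 (δ / 2) (by simpa [abs_of_pos δ0] using δ0))
  have h4 := h1 _ (@h2 (-(δ / 2)) (by simpa [abs_of_pos δ0] using δ0))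
  have h5 := h.ex x (p - x) 1
  rw [h.ex, h1 x hx] at h3 h4
  have h6 : δ * L x (p - x) = 0 := by linarith
  have h7 : δ ^ 2 * B (p - x) (p - x) = 0 := by linarith
  simp_all [δ0.ne']

lemma Ex.fin (h : Ex g L B) {p} (hp : g p ≠ 0) :
    {φ : (Fin n → ℝ) →ₗ[ℝ] ℝ | φ ≠ 0 ∧ ∀ v, φ v = -1 → g (p + v) = 0}.Finite := by
  by_contra a
  let e := Set.Infinite.natEmbedding _ a
  have h1 : ∀ i j, i ≠ j → ∃ x, ((e i).1 - (e j).1) x ≠ 0 := fun i j b => by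
    by_contra! c
    exact b (e.injective (Subtype.ext (sub_eq_zero.1 (LinearMap.ext c))))
  have h2 : ∀ i, ∃ x, (e i).1 x ≠ 0 := fun i => by
    by_contra! c
    exact (e i).2.1 (LinearMap.ext c)
  obtain ⟨x, hx⟩ := Module.Dual.exists_forall_ne_zero_of_forall_exists ![(e 0).1, (e 1).1, (e 2).1, (e 0).1 - (e 1).1,
    (e 0).1 - (e 2).1, (e 1).1 - (e 2).1] fun i => by
      fin_cases i
      exacts [h2 0, h2 1, h2 2, h1 0 1 (by simp), h1 0 2 (by simp), h1 1 2 (by simp)]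
  have h3 : ∀ i, (e i).1 x ≠ 0 → g p * (e i).1 x ^ 2 - L p x * (e i).1 x + B x x = 0 := fun i b => by
    have := (h.ex p x _).symm.trans ((e i).2.2 ((-((e i).1 x)⁻¹) • x) (by simp [b]))
    field_simp at this
    linarith
  have a0 := h3 0 (hx 0)
  have a1 := h3 1 (hx 1)
  have a2 := h3 2 (hx 2)
  have a3 : (e 0).1 x - (e 1).1 x ≠ 0 := hx 3
  have a4 : (e 0).1 x - (e 2).1 x ≠ 0 := hx 4
  have a5 : (e 1).1 x - (e 2).1 x ≠ 0 := hx 5
  grind

lemma Ex.side (h : Ex g L B) {y e} (h0 : g y = 0) (h1 : 0 < L y e) {ι : Type} {U : ι → Set (Fin n → ℝ)}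
    (hU : ∀ S k, IsPreconnected S → S ⊆ ⋃ k, U k → ∀ x ∈ S, x ∈ U k → S ⊆ U k)
    (h2 : ∀ᶠ z in 𝓝 y, g z ≠ 0 → z ∈ ⋃ k, U k) : ∃ a, ∀ᶠ z in 𝓝 y, 0 < g z → z ∈ U a := by
  have := h.c2 e
  have h3 : ∀ᶠ p : (Fin n → ℝ) × ℝ in 𝓝 (y, 0), 0 < L p.1 e + p.2 * B e e ∧
      (g (p.1 + p.2 • e) ≠ 0 → p.1 + p.2 • e ∈ ⋃ k, U k) :=
    ((show ContinuousAt (fun p : (Fin n → ℝ) × ℝ => L p.1 e + p.2 * B e e) (y, 0) by fun_prop).eventually
      (lt_mem_nhds (by simpa))).and ((show ContinuousAt (fun p : (Fin n → ℝ) × ℝ => p.1 + p.2 • e) (y, 0) by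
        fun_prop).eventually (by simpa))
  obtain ⟨δ, δ0, h4⟩ := Metric.eventually_nhds_iff.1 h3
  have h5 : ∀ z ∈ ball y δ, ∀ t ∈ Icc 0 (δ / 2), g z + t * (L z e + t * B e e) = g (z + t • e) ∧
      0 < L z e + t * B e e ∧ (g (z + t • e) ≠ 0 → z + t • e ∈ ⋃ k, U k) := fun z hz t ht => ⟨by rw [h.ex]; ring,
    @h4 (z, t) (max_lt hz (by rw [dist_zero_right, Real.norm_of_nonneg ht.1]; linarith [ht.2]))⟩
  have h6 : δ / 2 ∈ Icc 0 (δ / 2) := ⟨by positivity, le_rfl⟩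
  have := h.c1
  obtain ⟨r, r0, h7⟩ := Metric.eventually_nhds_iff.1 (((show ContinuousAt (fun z => g (z + (δ / 2) • e)) y by
    fun_prop).eventually (lt_mem_nhds (show 0 < g (y + (δ / 2) • e) by
      obtain ⟨a, b, -⟩ := h5 y (mem_ball_self δ0) _ h6
      rw [← a, h0, zero_add]
      positivity))).and (ball_mem_nhds y δ0))
  have h8 : (fun z => z + (δ / 2) • e) '' ball y r ⊆ ⋃ k, U k := by
    rintro _ ⟨z, hz, rfl⟩
    exact (h5 z (h7 hz).2 _ h6).2.2 (h7 hz).1.ne'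
  obtain ⟨a, ha⟩ := mem_iUnion.1 (h8 ⟨y, mem_ball_self r0, rfl⟩)
  refine ⟨a, Metric.eventually_nhds_iff.2 ⟨r, r0, fun z hz b => hU ((fun t : ℝ => z + t • e) '' Icc 0 (δ / 2)) a
    (isPreconnected_Icc.image _ (by fun_prop)) ?_ _ ⟨_, h6, rfl⟩ (hU _ a ((convex_ball y r).isPreconnected.image _
      (by fun_prop)) h8 _ ⟨y, mem_ball_self r0, rfl⟩ ha ⟨z, hz, rfl⟩) ⟨0, ⟨le_rfl, h6.1⟩, by simp⟩⟩⟩
  rintro _ ⟨t, ht, rfl⟩
  obtain ⟨c, d, k⟩ := h5 z (h7 hz).2 t ht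
  exact k (c ▸ (add_pos_of_pos_of_nonneg b (mul_nonneg ht.1 d.le)).ne')

lemma Ex.snd (h : Ex g L B) (h' : Ex q L' B') {y e w} (h0 : g y = 0) (h1 : 0 < L y e) (h2 : ∀ᶠ z in 𝓝 y, 0 < g z → f z = q z)
    (h3 : f y = q y) {d : (Fin n → ℝ) → ℝ} {c : ℝ} (hd : ∀ v, Tendsto (fun p : (Fin n → ℝ) × ℝ =>
      (f (y + p.2 • p.1) - f y) / p.2) (𝓝 v ×ˢ 𝓝[>] 0) (𝓝 (d v))) (hc : Tendsto (fun p : (Fin n → ℝ) × ℝ =>
      (f (y + p.2 • p.1) - f y - p.2 * d p.1) / p.2 ^ 2) (𝓝 w ×ˢ 𝓝[>] 0) (𝓝 c)) (hw : L y w = 0) : c = B' w w := by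
  have k1 : ∀ v, 0 < L y v → d v = L' y v := fun v hv => by
    refine tendsto_nhds_unique ((hd v).comp (tendsto_const_nhds.prodMk tendsto_id)) (Tendsto.congr' ?_
      (((show Continuous fun t : ℝ => L' y v + t * B' v v by fun_prop).tendsto' 0 _ (by simp)).mono_left nhdsWithin_le_nhds))
    filter_upwards [self_mem_nhdsWithin, nhdsWithin_le_nhds ((show ContinuousAt (fun t : ℝ => L y v + t * B v v) 0 by
      fun_prop).eventually (lt_mem_nhds (by simpa))), nhdsWithin_le_nhds ((show ContinuousAt (fun t : ℝ => y + t • v) 0 by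
      fun_prop).eventually (by simpa using h2))] with t (a : 0 < t) b c
    simp only [Function.comp_apply, id]
    rw [c (by rw [h.ex, h0]; nlinarith [mul_pos a b]), h'.ex, h3]
    field_simp
    ring
  obtain ⟨s, s0, s1⟩ : ∃ s : ℝ, 0 < s ∧ 0 < s * L y e + B w w := ⟨(|B w w| + 1) / L y e, by positivity, by
    rw [div_mul_cancel₀ _ h1.ne']; linarith [neg_abs_le (B w w)]⟩
  have k2 : Tendsto (fun t : ℝ => w + (t * s) • e) (𝓝 0) (𝓝 w) := Continuous.tendsto' (by fun_prop) _ _ (by simp)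
  refine tendsto_nhds_unique (hc.comp ((k2.mono_left nhdsWithin_le_nhds).prodMk tendsto_id)) (Tendsto.congr' ?_
    (((h'.c3.tendsto w).comp k2).mono_left nhdsWithin_le_nhds))
  filter_upwards [self_mem_nhdsWithin, nhdsWithin_le_nhds ((((h.c3.tendsto w).comp k2).const_add (s * L y e)).eventually
    (lt_mem_nhds s1)), nhdsWithin_le_nhds ((show ContinuousAt (fun t : ℝ => y + t • (w + (t * s) • e)) 0 by
      fun_prop).eventually (by simpa using h2))] with t (a : 0 < t) b c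
  have k3 : L y (w + (t * s) • e) = t * s * L y e := by simp [hw]
  simp only [Function.comp_apply, id] at b ⊢
  rw [c (by rw [h.ex, h0, k3]; nlinarith [mul_pos (pow_pos a 2) b]), h'.ex, h3, k1 _ (by rw [k3]; positivity)]
  field_simp
  ring

lemma cell {ι : Type} [Finite ι] {q : ι → (Fin n → ℝ) → ℝ} {L : ι → (Fin n → ℝ) → (Fin n → ℝ) →ₗ[ℝ] ℝ}
    {B : ι → (Fin n → ℝ) →ₗ[ℝ] (Fin n → ℝ) →ₗ[ℝ] ℝ} (hq : ∀ i, Ex (q i) (L i) (B i)) (hi : q.Injective) (hf : Continuous f)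
    (h0 : ∀ x, ∃ i, f x = q i x) (hd : ∀ y, ∃ d c : (Fin n → ℝ) → ℝ, (∀ v, Tendsto (fun p : (Fin n → ℝ) × ℝ =>
      (f (y + p.2 • p.1) - f y) / p.2) (𝓝 v ×ˢ 𝓝[>] 0) (𝓝 (d v))) ∧ ∀ w, Tendsto (fun p : (Fin n → ℝ) × ℝ =>
      (f (y + p.2 • p.1) - f y - p.2 * d p.1) / p.2 ^ 2) (𝓝 w ×ˢ 𝓝[>] 0) (𝓝 (c w))) {C : Set (Fin n → ℝ)} (c1 : IsOpen C)
    (c2 : IsPreconnected C) (c3 : C.Nonempty) (c4 : ∀ y ∈ C, ∀ i j, i ≠ j → ∀ ψ : (Fin n → ℝ) →ₗ[ℝ] ℝ, ψ ≠ 0 →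
      ¬ ∀ v, ψ v = 0 → (q i - q j) (y + v) = 0) : ∃ i, EqOn f (q i) C := by
  obtain ⟨U, hU⟩ : ∃ U : ι → Set (Fin n → ℝ), ∀ k, U k = interior {x | f x = q k x} := ⟨_, fun _ => rfl⟩
  have u0 : ∀ k, IsOpen (U k) := fun k => hU k ▸ isOpen_interior
  have u1 : ∀ k, ∀ x ∈ closure (U k), f x = q k x := fun k =>
    closure_minimal (hU k ▸ interior_subset) (isClosed_eq hf (hq k).c1)
  have u2 : ∀ i j, i ≠ j → Dense {x | (q i - q j) x ≠ 0} := fun i j h =>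
    ((hq i).sub (hq j)).dens (Function.ne_iff.1 (sub_ne_zero.2 (hi.ne h))).choose_spec
  have u3 : ∀ i j x, x ∈ U i → x ∈ U j → i = j := fun i j x a b => by_contra fun h => by
    obtain ⟨z, ⟨c, d⟩, e⟩ := (u2 i j h).inter_open_nonempty _ ((u0 i).inter (u0 j)) ⟨x, a, b⟩
    exact e (sub_eq_zero.2 ((u1 i z (subset_closure c)).symm.trans (u1 j z (subset_closure d))))
  have u4 : ∀ S k, IsPreconnected S → S ⊆ ⋃ k, U k → ∀ x ∈ S, x ∈ U k → S ⊆ U k := fun S k a b x c d =>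
    a.subset_left_of_subset_union (v := ⋃ l ∈ ({k}ᶜ : Set ι), U l) (u0 k) (isOpen_biUnion fun l _ => u0 l)
      (disjoint_iUnion₂_right.2 fun l hl => disjoint_left.2 fun z e e' => hl (u3 _ _ z e' e)) (fun z hz => by
        obtain ⟨l, hl⟩ := mem_iUnion.1 (b hz)
        exact or_iff_not_imp_left.2 fun e => mem_biUnion (show l ∈ ({k}ᶜ : Set ι) from fun e' : l = k => e (e' ▸ hl)) hl) ⟨x, c, d⟩
  have u5 : ∀ x, ∃ k, x ∈ closure (U k) := fun x => mem_iUnion.1 (closure_iUnion_of_finite U ▸ by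
    simpa only [hU] using dense_iUnion_interior_of_closed (fun k => isClosed_eq hf (hq k).c1)
      (eq_univ_of_forall fun x => mem_iUnion.2 (h0 x)) x)
  have u6 : ∀ x, ∀ᶠ y in 𝓝 x, ∀ k, y ∈ closure (U k) → x ∈ closure (U k) := fun x => eventually_all.2 fun k => by
    by_cases h : x ∈ closure (U k)
    · exact .of_forall fun _ _ => h
    · exact mem_of_superset (isClosed_closure.isOpen_compl.mem_nhds h) fun y a b => (a b).elim
  have u7 : ∀ x a, (∀ k, x ∈ closure (U k) → k = a) → x ∈ ⋃ k, U k := fun x a h => mem_iUnion.2 ⟨a, by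
    rw [hU]
    refine mem_interior_iff_mem_nhds.2 ((u6 x).mono fun y hy => ?_)
    obtain ⟨k, hk⟩ := u5 y
    exact h k (hy k hk) ▸ u1 k y hk⟩
  have u8 : ∀ x a b i j, i ≠ j → (∀ᶠ z in 𝓝 x, (q i - q j) z ≠ 0 → z ∈ U a ∨ z ∈ U b) → ∀ k, x ∈ closure (U k) →
      k = a ∨ k = b := fun x a b i j h e k hk => by
    obtain ⟨W, w1, w2, w3⟩ := _root_.eventually_nhds_iff.1 e
    obtain ⟨z, ⟨c, d⟩, l⟩ := (u2 i j h).inter_open_nonempty _ (w2.inter (u0 k)) (mem_closure_iff.1 hk W w2 w3)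
    exact (w1 z c l).imp (u3 _ _ z d) (u3 _ _ z d)
  suffices C ⊆ ⋃ k, U k by
    obtain ⟨x, hx⟩ := c3
    obtain ⟨k, hk⟩ := mem_iUnion.1 (this hx)
    exact ⟨k, fun y hy => u1 k y (subset_closure (u4 C k c2 this x hx hk hy))⟩
  by_contra a
  obtain ⟨x, ⟨x1, x2⟩, x3⟩ := (measure fun x => {k | x ∈ closure (U k)}.ncard).wf.has_min _ (not_subset.1 a)
  obtain ⟨r, r0, hr⟩ := Metric.eventually_nhds_iff.1 ((u6 x).and (c1.mem_nhds x1))
  have k1 : ∀ y ∈ ball x r, y ∉ ⋃ k, U k → ∀ k, x ∈ closure (U k) → y ∈ closure (U k) := fun y b c =>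
    (eq_of_subset_of_ncard_le (s := {k | y ∈ closure (U k)}) (t := {k | x ∈ closure (U k)}) (hr b).1
      (not_lt.1 (x3 y ⟨(hr b).2, c⟩))).ge
  obtain ⟨i, xi⟩ := u5 x
  obtain ⟨j, xj, ij⟩ : ∃ j, x ∈ closure (U j) ∧ i ≠ j := by
    by_contra! b
    exact x2 (u7 x i fun k hk => (b k hk).symm)
  have g := (hq i).sub (hq j)
  have k2 : ∀ y ∈ ball x r, y ∉ ⋃ k, U k → (q i - q j) y = 0 := fun y b c =>
    sub_eq_zero.2 ((u1 i y (k1 y b c i xi)).symm.trans (u1 j y (k1 y b c j xj)))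
  by_cases hA : ∃ y ∈ ball x r, y ∉ ⋃ k, U k ∧ (L i - L j) y ≠ 0
  · obtain ⟨y, y1, y2, y3⟩ := hA
    obtain ⟨e, he⟩ : ∃ e, 0 < (L i - L j) y e := by
      obtain ⟨e, he⟩ := DFunLike.ne_iff.1 y3
      exact (lt_or_gt_of_ne he).elim (fun h => ⟨-e, by simpa using h⟩) fun h => ⟨e, h⟩
    have k3 := k2 y y1 y2
    have k4 : ∀ᶠ z in 𝓝 y, (q i - q j) z ≠ 0 → z ∈ ⋃ k, U k :=
      mem_of_superset (isOpen_ball.mem_nhds y1) fun z b c => by_contra fun d => c (k2 z b d)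
    have g' := (hq j).sub (hq i)
    have k5 : (q j - q i) y = 0 := by simpa [sub_eq_zero, eq_comm] using k3
    have k6 : 0 < (L j - L i) y (-e) := by simpa using he
    obtain ⟨a, ha⟩ := g.side k3 he u4 k4
    obtain ⟨b, hb⟩ := g'.side k5 k6 u4 (k4.mono fun z h c => h (by simpa [sub_eq_zero, eq_comm] using c))
    have k7 := u8 y a b i j ij ((ha.and hb).mono fun z h c => (lt_or_gt_of_ne c).symm.imp h.1 fun d => h.2 (by simpa using d))
    have yi := k1 y y1 y2 i xi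
    have yj := k1 y y1 y2 j xj
    have k8 : a = i ∧ b = j ∨ a = j ∧ b = i := by
      have := k7 i yi
      have := k7 j yj
      grind
    obtain ⟨d, c, d1, d2⟩ := hd y
    refine c4 y (hr y1).2 i j ij _ y3 fun w hw => ?_
    have e1 := g.snd (hq a) k3 he (ha.mono fun z h c => u1 a z (subset_closure (h c)))
      (u1 a y (by rcases k8 with h | h <;> rwa [h.1])) d1 (d2 w) hw
    have e2 := g'.snd (hq b) k5 k6 (hb.mono fun z h c => u1 b z (subset_closure (h c)))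
      (u1 b y (by rcases k8 with h | h <;> rwa [h.2])) d1 (d2 w) (sub_eq_zero.2 (sub_eq_zero.1 hw).symm)
    have := g.ex y w 1
    rw [one_smul, k3, hw] at this
    rcases k8 with ⟨rfl, rfl⟩ | ⟨rfl, rfl⟩ <;> simp [this, ← e1, ← e2]
  push Not at hA
  have k3 := k2 x (mem_ball_self r0) x2
  have k4 : ∀ v ∈ LinearMap.ker (B i - B j), (q i - q j) (x + v) = 0 := fun v hv => by
    simpa [k3, hA x (mem_ball_self r0) x2, show (B i - B j) v = 0 from hv, -LinearMap.sub_apply, -Pi.sub_apply] using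
      g.ex x v 1
  have k5 : ∀ v, x + v ∈ ball x r → v ∉ LinearMap.ker (B i - B j) → x + v ∈ ⋃ k, U k := fun v b c => by_contra fun d => c (by
    simpa [hA _ b d, hA x (mem_ball_self r0) x2, -LinearMap.sub_apply, -Pi.sub_apply] using (g.aff x v).symm)
  have k6 : ∀ v, (q i - q j) (x + v) ≠ 0 → LinearMap.ker (B i - B j) ⊔ Submodule.span ℝ {v} ≠ ⊤ := fun v b c => by
    obtain ⟨ψ, p1, p2⟩ := Submodule.exists_le_ker_of_notMem (mt (k4 v) b)
    refine c4 x x1 i j ij ψ (fun e => p1 (by simp [e])) fun w hw => k4 w ?_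
    obtain ⟨u, hu, z, hz, rfl⟩ := Submodule.mem_sup.1 (c.ge (Submodule.mem_top (x := w)))
    obtain ⟨t, rfl⟩ := Submodule.mem_span_singleton.1 hz
    obtain rfl : t = 0 := by simpa [show ψ u = 0 from p2 hu, p1] using hw
    simpa using hu
  have k7 : ∀ v w, x + v ∈ ball x r → x + w ∈ ball x r → (q i - q j) (x + v) ≠ 0 →
      w ∉ LinearMap.ker (B i - B j) ⊔ Submodule.span ℝ {v} → segment ℝ (x + v) (x + w) ⊆ ⋃ k, U k := by
    rintro v w b c d e _ ⟨s, t, s0, t0, st, rfl⟩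
    have h1 : s • (x + v) + t • (x + w) = x + (s • v + t • w) := by
      rw [smul_add, smul_add, add_add_add_comm, ← add_smul, st, one_smul]
    refine h1 ▸ k5 _ (h1 ▸ convex_ball x r b c s0 t0 st) fun h => ?_
    rcases eq_or_ne t 0 with rfl | l
    · exact d (k4 v (by simpa [show s = 1 by simpa using st] using h))
    · refine e ((Submodule.smul_mem_iff _ l).1 ?_)
      simpa using sub_mem (Submodule.mem_sup_left h) (Submodule.mem_sup_right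
        (Submodule.smul_mem _ s (Submodule.mem_span_singleton_self v)))
  obtain ⟨z, z1, z2⟩ := (u2 i j ij).inter_open_nonempty _ isOpen_ball ⟨x, mem_ball_self r0⟩
  obtain ⟨a, ha⟩ := mem_iUnion.1 (by_contra fun d => z2 (k2 z z1 d))
  refine x2 (u7 x a fun k hk => (or_self_iff.1 (u8 x a a i j ij (mem_of_superset (ball_mem_nhds x r0)
    fun y y1 y2 => .inl ?_) k hk)))
  obtain ⟨z, rfl⟩ : ∃ v, z = x + v := ⟨z - x, by simp⟩
  obtain ⟨y, rfl⟩ : ∃ v, y = x + v := ⟨y - x, by simp⟩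
  obtain ⟨w, hw⟩ := Submodule.exists_forall_notMem_of_forall_ne_top ![LinearMap.ker (B i - B j) ⊔ Submodule.span ℝ {z},
    LinearMap.ker (B i - B j) ⊔ Submodule.span ℝ {y}] (Fin.forall_fin_two.2 ⟨k6 z z2, k6 y y2⟩)
  obtain ⟨t, t1, t2⟩ := ((((show Continuous fun t : ℝ => x + t • w by fun_prop).tendsto' 0 x (by simp)).eventually
    (ball_mem_nhds x r0)).filter_mono (nhdsWithin_le_nhds (s := {0}ᶜ))).and self_mem_nhdsWithin |>.exists
  have h1 := k7 y _ y1 t1 y2 (mt (Submodule.smul_mem_iff _ t2).1 (hw 1))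
  exact u4 _ a (convex_segment _ _).isPreconnected h1 _ (right_mem_segment _ _ _) (u4 _ a (convex_segment _ _).isPreconnected
    (k7 z _ z1 t1 z2 (mt (Submodule.smul_mem_iff _ t2).1 (hw 0))) _ (left_mem_segment _ _ _) ha (right_mem_segment _ _ _))
    (left_mem_segment _ _ _)

end Pool.Agent.H.MP_83d7ff_an
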